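import Mathlib

set_option autoImplicit false

/-!
# Fixed points of collineations of prime power order
-/

namespace Pool.Agent.W825.FP

open Configuration Configuration.ProjectivePlane Configuration.Nondegenerate

theorem fix_mod {X : Type} [Fintype X] [DecidableEq X] (σ : Equiv.Perm X) {q b : ℕ} (hq : q.Prime)
    (hσ : σ ^ q ^ b = 1) (p : X → Prop) [DecidablePred p] (hp : ∀ x, p (σ x) ↔ p x) :
    Fintype.card {x // p x} ≡ Fintype.card {x // p x ∧ σ x = x} [MOD q] := by
  classical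
  have : Fact q.Prime := ⟨hq⟩
  let ρ : Equiv.Perm {x // p x} := σ.subtypePerm hp
  have hρ : ρ ^ q ^ b = 1 := by
    have h1 : ∀ (k : ℕ) (x : {x // p x}), ((ρ ^ k) x).1 = (σ ^ k) x.1 := by
      intro k
      induction k with
      | zero => intro x; rfl
      | succ k ih =>
        intro x
        rw [pow_succ', pow_succ', Equiv.Perm.mul_apply, Equiv.Perm.mul_apply, ← ih]
        rfl
    ext x
    rw [h1, hσ]
    rfl
  have h3 := Equiv.Perm.card_compl_support_modEq hρ
  refine h3.symm.trans ?_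
  have e : ρ.supportᶜ.card = Fintype.card {x // p x ∧ σ x = x} := by
    rw [← Fintype.card_coe]
    apply Fintype.card_congr
    refine ⟨fun x => ⟨x.1.1, x.1.2, ?_⟩, fun x => ⟨⟨x.1, x.2.1⟩, ?_⟩, ?_, ?_⟩
    · have h4 := x.2
      rw [Finset.mem_compl, Equiv.Perm.mem_support, not_not] at h4
      exact congrArg Subtype.val h4
    · rw [Finset.mem_compl, Equiv.Perm.mem_support, not_not]
      exact Subtype.ext x.2.2
    · intro x; rfl
    · intro x; rfl
  rw [e]

theorem third {X : Type} [DecidableEq X] {s : Finset X} (h : 3 ≤ s.card) (x y : X) :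
    ∃ z ∈ s, z ≠ x ∧ z ≠ y := by
  have h1 : 0 < ((s.erase x).erase y).card := by
    have := Finset.pred_card_le_card_erase (s := s) (a := x)
    have := Finset.pred_card_le_card_erase (s := s.erase x) (a := y)
    omega
  obtain ⟨z, hz⟩ := Finset.card_pos.1 h1
  rw [Finset.mem_erase, Finset.mem_erase] at hz
  exact ⟨z, hz.2.2, hz.2.1, hz.1⟩

section

variable {P L : Type} [Membership P L] [ProjectivePlane P L] [Fintype P] [Fintype L]
  (σ : Equiv.Perm P) (τ : Equiv.Perm L) (h : ∀ p l, σ p ∈ τ l ↔ p ∈ l)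

include h

theorem line_fixed {p q : P} (hpq : p ≠ q) (hp : σ p = p) (hq : σ q = q) {l : L} (h1 : p ∈ l)
    (h2 : q ∈ l) : τ l = l := by
  have h3 := (h p l).2 h1
  have h4 := (h q l).2 h2
  rw [hp] at h3
  rw [hq] at h4
  exact ((eq_or_eq h3 h4 h1 h2).resolve_left hpq)

theorem point_fixed {l m : L} (hlm : l ≠ m) (hl : τ l = l) (hm : τ m = m) {p : P} (h1 : p ∈ l)
    (h2 : p ∈ m) : σ p = p := by
  have h3 := (h p l).2 h1
  have h4 := (h p m).2 h2
  rw [hl] at h3
  rw [hm] at h4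
  exact ((eq_or_eq h3 h1 h4 h2).resolve_right hlm)

/-- the fixed points and lines form a projective plane if they contain a suitable configuration -/
theorem odd_of_config (A B C p1 : P) (l2 l3 m : L) (hA : σ A = A) (hB : σ B = B) (hC : σ C = C)
    (hp1 : σ p1 = p1) (hl2 : τ l2 = l2) (hl3 : τ l3 = l3) (hm : τ m = m) (hAB : A ≠ B)
    (hCA : C ≠ A) (hCB : C ≠ B) (hA2 : A ∈ l2) (hB2 : B ∈ l2) (hC2 : C ∈ l2) (hA3 : A ∈ l3)
    (hAm : A ∈ m) (h23 : l2 ≠ l3) (hm2 : m ≠ l2) (hm3 : m ≠ l3) (hpm : p1 ∈ m) (hpA : p1 ≠ A) :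
    Odd (Nat.card {p // σ p = p}) := by
  classical
  let FP := {p : P // σ p = p}
  let FL := {l : L // τ l = l}
  let _ : Membership FP FL := ⟨fun (l : FL) (p : FP) => p.1 ∈ l.1⟩
  have hmem : ∀ (p : FP) (l : FL), p ∈ l ↔ p.1 ∈ l.1 := fun _ _ => Iff.rfl
  have hp12 : p1 ∉ l2 := fun h5 => hm2 ((eq_or_eq hAm hpm hA2 h5).resolve_left hpA.symm)
  have hp13 : p1 ∉ l3 := fun h5 => hm3 ((eq_or_eq hAm hpm hA3 h5).resolve_left hpA.symm)
  have hpC : p1 ≠ C := fun h5 => hp12 (h5 ▸ hC2)
  -- the line through `p1` and `C`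
  let l1 : L := HasLines.mkLine hpC
  have hl1a : p1 ∈ l1 := (HasLines.mkLine_ax hpC).1
  have hl1b : C ∈ l1 := (HasLines.mkLine_ax hpC).2
  have hl1 : τ l1 = l1 := line_fixed σ τ h hpC hp1 hC hl1a hl1b
  have hAl1 : A ∉ l1 := by
    intro h5
    have h6 := (eq_or_eq h5 hl1b hA2 hC2).resolve_left hCA.symm
    exact hp12 (h6 ▸ hl1a)
  have hBl1 : B ∉ l1 := by
    intro h5
    have h6 := (eq_or_eq h5 hl1b hB2 hC2).resolve_left hCB.symm
    exact hp12 (h6 ▸ hl1a)
  have hB3 : B ∉ l3 := fun h5 => h23 ((eq_or_eq hA2 hB2 hA3 h5).resolve_left hAB)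
  let _ : ProjectivePlane FP FL :=
    { exists_point := by
        rintro ⟨l, hl⟩
        by_contra hc
        push Not at hc
        have c1 : A ∈ l := hc ⟨A, hA⟩
        have c2 : B ∈ l := hc ⟨B, hB⟩
        have c3 : p1 ∈ l := hc ⟨p1, hp1⟩
        have c4 := (eq_or_eq c1 c2 hA2 hB2).resolve_left hAB
        exact hp12 (c4 ▸ c3)
      exists_line := by
        rintro ⟨p, hp⟩
        by_contra hc
        push Not at hc
        have c1 : p ∈ l1 := hc ⟨l1, hl1⟩
        have c2 : p ∈ l2 := hc ⟨l2, hl2⟩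
        have c3 : p ∈ l3 := hc ⟨l3, hl3⟩
        have c4 := (eq_or_eq c2 hA2 c3 hA3).resolve_right h23
        exact hAl1 (c4 ▸ c1)
      eq_or_eq := by
        rintro ⟨p, hp⟩ ⟨p', hp'⟩ ⟨l, hl⟩ ⟨l', hl'⟩ c1 c2 c3 c4
        rcases eq_or_eq (P := P) (L := L) c1 c2 c3 c4 with c5 | c5
        · left; exact Subtype.ext c5
        · right; exact Subtype.ext c5
      mkPoint := fun {l m} hlm => ⟨HasPoints.mkPoint (fun e => hlm (Subtype.ext e)),
        point_fixed σ τ h (fun e => hlm (Subtype.ext e)) l.2 m.2 (HasPoints.mkPoint_ax _).1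
          (HasPoints.mkPoint_ax _).2⟩
      mkPoint_ax := fun {l m} hlm => HasPoints.mkPoint_ax (P := P) (L := L) _
      mkLine := fun {p q} hpq => ⟨HasLines.mkLine (fun e => hpq (Subtype.ext e)),
        line_fixed σ τ h (fun e => hpq (Subtype.ext e)) p.2 q.2 (HasLines.mkLine_ax _).1
          (HasLines.mkLine_ax _).2⟩
      mkLine_ax := fun {p q} hpq => HasLines.mkLine_ax (P := P) (L := L) _
      exists_config := ⟨⟨p1, hp1⟩, ⟨A, hA⟩, ⟨B, hB⟩, ⟨l1, hl1⟩, ⟨l2, hl2⟩, ⟨l3, hl3⟩, hp12, hp13,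
        hAl1, hA2, hA3, hBl1, hB2, hB3⟩ }
  have hc := card_points FP FL
  rw [Nat.card_eq_fintype_card]
  change Odd (Fintype.card FP)
  rw [hc]
  have : order FP FL ^ 2 + order FP FL = order FP FL * (order FP FL + 1) := by ring
  rw [this]
  exact (Nat.even_mul_succ_self _).add_one

theorem even_fix_dvd {q b : ℕ} (hq : q.Prime) (hσ : σ ^ q ^ b = 1) (hτ : τ ^ q ^ b = 1)
    (heven : Even (Nat.card {p // σ p = p})) :
    q ∣ order P L ∨ q ∣ order P L - 1 ∨ q ∣ order P L ^ 2 + order P L + 1 := by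
  classical
  by_contra hcon
  push Not at hcon
  obtain ⟨hn0, hn1, hN⟩ := hcon
  apply Nat.not_even_iff_odd.2 _ heven
  set n := order P L with hn
  have hn2 : 1 < n := one_lt_order P L
  -- fixed points on fixed lines
  have hline : ∀ l : L, τ l = l → ((Finset.univ.filter (fun p : P => p ∈ l ∧ σ p = p)).card ≠ 1 ∧
      (Finset.univ.filter (fun p : P => p ∈ l ∧ σ p = p)).card ≠ 2) := by
    intro l hl
    have h1 := fix_mod σ hq hσ (fun p => p ∈ l) (fun x => by
      have := h x l; rw [hl] at this; exact this)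
    have h2 : Fintype.card {p : P // p ∈ l} = n + 1 := by
      rw [← Nat.card_eq_fintype_card]
      exact pointCount_eq P l
    rw [h2, Fintype.card_subtype] at h1
    constructor
    · intro h3
      rw [h3] at h1
      apply hn0
      have h4 := (Nat.modEq_iff_dvd' (by omega)).1 h1.symm
      simpa using h4
    · intro h3
      rw [h3] at h1
      apply hn1
      have h4 := (Nat.modEq_iff_dvd' (by omega)).1 h1.symm
      simpa using h4
  have hpoint : ∀ p : P, σ p = p → ((Finset.univ.filter (fun l : L => p ∈ l ∧ τ l = l)).card ≠ 1 ∧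
      (Finset.univ.filter (fun l : L => p ∈ l ∧ τ l = l)).card ≠ 2) := by
    intro p hp
    have h1 := fix_mod τ hq hτ (fun l => p ∈ l) (fun x => by
      have := h p x; rw [hp] at this; exact this)
    have h2 : Fintype.card {l : L // p ∈ l} = n + 1 := by
      rw [← Nat.card_eq_fintype_card]
      exact lineCount_eq (L := L) p
    rw [h2, Fintype.card_subtype] at h1
    constructor
    · intro h3
      rw [h3] at h1
      apply hn0
      have h4 := (Nat.modEq_iff_dvd' (by omega)).1 h1.symm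
      simpa using h4
    · intro h3
      rw [h3] at h1
      apply hn1
      have h4 := (Nat.modEq_iff_dvd' (by omega)).1 h1.symm
      simpa using h4
  -- there are two fixed points
  have hf0 : Nat.card {p // σ p = p} ≠ 0 := by
    intro h0
    have h1 := fix_mod σ hq hσ (fun _ => True) (fun _ => Iff.rfl)
    have h2 : Fintype.card {p : P // True ∧ σ p = p} = 0 := by
      rw [← h0, Nat.card_eq_fintype_card]
      apply Fintype.card_congr
      exact Equiv.subtypeEquivRight (fun x => by simp)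
    have h3 : Fintype.card {p : P // True} = n ^ 2 + n + 1 := by
      rw [← card_points P L]
      exact Fintype.card_congr (Equiv.subtypeUnivEquiv (fun _ => trivial))
    rw [h2, h3] at h1
    exact hN ((Nat.modEq_zero_iff_dvd).1 h1)
  have hf2 : 1 < Fintype.card {p // σ p = p} := by
    rw [Nat.card_eq_fintype_card] at hf0 heven
    rcases heven with ⟨c, hc⟩
    omega
  obtain ⟨⟨A, hA⟩, ⟨B, hB⟩, hAB⟩ := Fintype.exists_pair_of_one_lt_card hf2
  have hAB' : A ≠ B := fun e => hAB (Subtype.ext e)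
  let l2 : L := HasLines.mkLine hAB'
  have hA2 : A ∈ l2 := (HasLines.mkLine_ax hAB').1
  have hB2 : B ∈ l2 := (HasLines.mkLine_ax hAB').2
  have hl2 : τ l2 = l2 := line_fixed σ τ h hAB' hA hB hA2 hB2
  have k2 : 3 ≤ (Finset.univ.filter (fun p : P => p ∈ l2 ∧ σ p = p)).card := by
    have h1 := hline l2 hl2
    have h2 : 0 < (Finset.univ.filter (fun p : P => p ∈ l2 ∧ σ p = p)).card :=
      Finset.card_pos.2 ⟨A, by rw [Finset.mem_filter]; exact ⟨Finset.mem_univ _, hA2, hA⟩⟩
    omega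
  obtain ⟨C, hC, hCA, hCB⟩ := third k2 A B
  rw [Finset.mem_filter] at hC
  have kA : 3 ≤ (Finset.univ.filter (fun l : L => A ∈ l ∧ τ l = l)).card := by
    have h1 := hpoint A hA
    have h2 : 0 < (Finset.univ.filter (fun l : L => A ∈ l ∧ τ l = l)).card :=
      Finset.card_pos.2 ⟨l2, by rw [Finset.mem_filter]; exact ⟨Finset.mem_univ _, hA2, hl2⟩⟩
    omega
  obtain ⟨l3, hl3, h32, -⟩ := third kA l2 l2
  rw [Finset.mem_filter] at hl3
  obtain ⟨m, hm, hm2, hm3⟩ := third kA l2 l3
  rw [Finset.mem_filter] at hm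
  have km : 3 ≤ (Finset.univ.filter (fun p : P => p ∈ m ∧ σ p = p)).card := by
    have h1 := hline m hm.2.2
    have h2 : 0 < (Finset.univ.filter (fun p : P => p ∈ m ∧ σ p = p)).card :=
      Finset.card_pos.2 ⟨A, by rw [Finset.mem_filter]; exact ⟨Finset.mem_univ _, hm.2.1, hA⟩⟩
    omega
  obtain ⟨p1, hp1, hpA, -⟩ := third km A A
  rw [Finset.mem_filter] at hp1
  exact odd_of_config σ τ h A B C p1 l2 l3 m hA hB hC.2.2 hp1.2.2 hl2 hl3.2.2 hm.2.2 hAB' hCA hCB
    hA2 hB2 hC.2.1 hl3.2.1 hm.2.1 h32.symm hm2 hm3 hp1.2.1 hpA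

end

end Pool.Agent.W825.FP
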