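import Mathlib
import Pool.Agent.W825.FP.Geo

set_option autoImplicit false

/-!
# Perspectivities
-/

namespace Pool.Agent.W825.FP

open Configuration Configuration.ProjectivePlane Configuration.Nondegenerate

/-- `σ, τ` is a collineation fixing every point of the line `a` and every line through the
point `c` -/
def IsPersp {P L : Type} [Membership P L] (σ : Equiv.Perm P) (τ : Equiv.Perm L) (c : P) (a : L) :
    Prop := (∀ p l, σ p ∈ τ l ↔ p ∈ l) ∧ (∀ p, p ∈ a → σ p = p) ∧ (∀ l, c ∈ l → τ l = l)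

section

variable {P L : Type} [Membership P L] [ProjectivePlane P L] [Fintype P] [Fintype L]
  {σ : Equiv.Perm P} {τ : Equiv.Perm L} {c : P} {a : L}

/-- three lines through every point -/
theorem three_lines (p : P) (l1 l2 : L) : ∃ m : L, p ∈ m ∧ m ≠ l1 ∧ m ≠ l2 := by
  classical
  have h1 : 3 ≤ (Finset.univ.filter (fun l : L => p ∈ l)).card := by
    have h2 : Fintype.card {l : L // p ∈ l} = order P L + 1 := by
      rw [← Nat.card_eq_fintype_card]
      exact lineCount_eq (L := L) p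
    rw [Fintype.card_subtype] at h2
    have := one_lt_order P L
    omega
  obtain ⟨z, hz, h2, h3⟩ := third h1 l1 l2
  exact ⟨z, (Finset.mem_filter.1 hz).2, h2, h3⟩

theorem three_points (l : L) (p1 p2 : P) : ∃ p : P, p ∈ l ∧ p ≠ p1 ∧ p ≠ p2 := by
  classical
  have h1 : 3 ≤ (Finset.univ.filter (fun p : P => p ∈ l)).card := by
    have h2 : Fintype.card {p : P // p ∈ l} = order P L + 1 := by
      rw [← Nat.card_eq_fintype_card]
      exact pointCount_eq P l
    rw [Fintype.card_subtype] at h2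
    have := one_lt_order P L
    omega
  obtain ⟨z, hz, h2, h3⟩ := third h1 p1 p2
  exact ⟨z, (Finset.mem_filter.1 hz).2, h2, h3⟩

/-- a perspectivity with a fixed point off its axis and different from its centre is trivial -/
theorem persp_fixed (h : IsPersp σ τ c a) (hσ : σ ≠ 1) {Q : P} (hQ : σ Q = Q) :
    Q ∈ a ∨ Q = c := by
  by_contra hcon
  push Not at hcon
  obtain ⟨hQa, hQc⟩ := hcon
  obtain ⟨hinc, ha, hc⟩ := h
  apply hσ
  -- lines through `Q` are fixed
  have hm : ∀ m : L, Q ∈ m → τ m = m := by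
    intro m hQm
    have hma : m ≠ a := fun e => hQa (e ▸ hQm)
    have hR1 := (HasPoints.mkPoint_ax (P := P) hma).1
    have hR2 := (HasPoints.mkPoint_ax (P := P) hma).2
    have hRQ : Q ≠ HasPoints.mkPoint hma := fun e => hQa (e ▸ hR2)
    exact line_fixed σ τ hinc hRQ hQ (ha _ hR2) hQm hR1
  let k : L := HasLines.mkLine hQc
  have hk1 : Q ∈ k := (HasLines.mkLine_ax hQc).1
  have hk2 : c ∈ k := (HasLines.mkLine_ax hQc).2
  have hoff : ∀ x : P, x ∉ k → σ x = x := by
    intro x hx
    have hxQ : x ≠ Q := fun e => hx (e ▸ hk1)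
    have hxc : x ≠ c := fun e => hx (e ▸ hk2)
    have a1 := HasLines.mkLine_ax hxQ (L := L)
    have a2 := HasLines.mkLine_ax hxc (L := L)
    have hne : (HasLines.mkLine hxQ : L) ≠ HasLines.mkLine hxc := by
      intro e
      have h3 : Q ∈ (HasLines.mkLine hxc : L) := e ▸ a1.2
      have h4 := (eq_or_eq hk1 hk2 h3 a2.2).resolve_left hQc
      exact hx (h4 ▸ a2.1)
    exact point_fixed σ τ hinc hne (hm _ a1.2) (hc _ a2.2) a1.1 a2.1
  have hline : ∀ m : L, m ≠ k → τ m = m := by
    intro m hmk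
    -- two points of `m` off `k`
    have hX := HasPoints.mkPoint_ax hmk (P := P)
    obtain ⟨p1, hp1, hp1X, -⟩ := three_points m (HasPoints.mkPoint hmk) (HasPoints.mkPoint hmk)
    obtain ⟨p2, hp2, hp2X, hp21⟩ := three_points m (HasPoints.mkPoint hmk) p1
    have o1 : p1 ∉ k := fun e => by
      rcases eq_or_eq hp1 hX.1 e hX.2 with h3 | h3
      · exact hp1X h3
      · exact hmk h3
    have o2 : p2 ∉ k := fun e => by
      rcases eq_or_eq hp2 hX.1 e hX.2 with h3 | h3
      · exact hp2X h3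
      · exact hmk h3
    exact line_fixed σ τ hinc hp21 (hoff p2 o2) (hoff p1 o1) hp2 hp1
  ext x
  rw [Equiv.Perm.one_apply]
  obtain ⟨m1, hx1, hm1, -⟩ := three_lines x k k
  obtain ⟨m2, hx2, hm2, hm21⟩ := three_lines x k m1
  exact point_fixed σ τ hinc hm21 (hline m2 hm2) (hline m1 hm1) hx2 hx1

theorem persp_card (h : IsPersp σ τ c a) (hσ : σ ≠ 1) : Nat.card {p // σ p = p} =
    order P L + 1 + Nat.card {p : P // p ∉ a ∧ p = c} := by
  classical
  have hc : σ c = c := by
    obtain ⟨m1, hx1, -⟩ := three_lines (L := L) c a a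
    obtain ⟨m2, hx2, hm2, hm21⟩ := three_lines c a m1
    exact point_fixed σ τ h.1 hm21 (h.2.2 m2 hx2) (h.2.2 m1 hx1) hx2 hx1
  have h1 : Nat.card {p : P // p ∈ a} = order P L + 1 := pointCount_eq P a
  rw [← h1, Nat.card_eq_fintype_card, Nat.card_eq_fintype_card, Nat.card_eq_fintype_card,
    Fintype.card_subtype, Fintype.card_subtype, Fintype.card_subtype,
    ← Finset.card_union_of_disjoint]
  · congr 1
    ext x
    rw [Finset.mem_union, Finset.mem_filter, Finset.mem_filter, Finset.mem_filter]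
    constructor
    · intro hx
      rcases persp_fixed h hσ hx.2 with h2 | h2
      · exact Or.inl ⟨Finset.mem_univ _, h2⟩
      · by_cases h3 : x ∈ a
        · exact Or.inl ⟨Finset.mem_univ _, h3⟩
        · exact Or.inr ⟨Finset.mem_univ _, h3, h2⟩
    · rintro (hx | hx)
      · exact ⟨Finset.mem_univ _, h.2.1 x hx.2⟩
      · refine ⟨Finset.mem_univ _, ?_⟩
        rw [hx.2.2]; exact hc
  · rw [Finset.disjoint_left]
    intro x hx hx2
    exact (Finset.mem_filter.1 hx2).2.1 (Finset.mem_filter.1 hx).2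

omit [ProjectivePlane P L] [Fintype P] [Fintype L] in
theorem persp_pow (h : IsPersp σ τ c a) (k : ℕ) : IsPersp (σ ^ k) (τ ^ k) c a := by
  induction k with
  | zero => exact ⟨fun p l => Iff.rfl, fun p _ => rfl, fun l _ => rfl⟩
  | succ k ih =>
    obtain ⟨h1, h2, h3⟩ := h
    obtain ⟨i1, i2, i3⟩ := ih
    refine ⟨fun p l => ?_, fun p hp => ?_, fun l hl => ?_⟩
    · rw [pow_succ', pow_succ', Equiv.Perm.mul_apply, Equiv.Perm.mul_apply, h1, i1]
    · rw [pow_succ', Equiv.Perm.mul_apply, i2 p hp, h2 p hp]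
    · rw [pow_succ', Equiv.Perm.mul_apply, i3 l hl, h3 l hl]

/-- some power is a nonidentity perspectivity of prime order -/
theorem persp_prime (h : IsPersp σ τ c a) (hσ : σ ≠ 1) : ∃ (σ' : Equiv.Perm P)
    (τ' : Equiv.Perm L), IsPersp σ' τ' c a ∧ σ' ≠ 1 ∧ IsPrimePow (orderOf σ') := by
  classical
  have h0 : orderOf σ ≠ 0 := (orderOf_pos σ).ne'
  have h1 : orderOf σ ≠ 1 := fun e => hσ (orderOf_eq_one_iff.1 e)
  obtain ⟨r, hr, hrd⟩ := Nat.exists_prime_and_dvd h1
  obtain ⟨m, hm⟩ := hrd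
  have hm0 : m ≠ 0 := by
    rintro rfl
    rw [mul_zero] at hm
    exact h0 hm
  have ho : orderOf (σ ^ m) = r := by
    rw [orderOf_pow' σ hm0, hm, Nat.gcd_eq_right (Dvd.intro_left r rfl),
      Nat.mul_div_cancel _ (Nat.pos_of_ne_zero hm0)]
  refine ⟨σ ^ m, τ ^ m, persp_pow h m, ?_, ?_⟩
  · intro e
    rw [e, orderOf_one] at ho
    exact hr.one_lt.ne ho
  · rw [ho]; exact hr.isPrimePow

end

end Pool.Agent.W825.FP
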