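import Mathlib
import Pool.Agent.H771R2.Lander
import Pool.Agent.H634R3.PPC.Test

set_option autoImplicit false

/-!
# The determinant test with classes of different sizes
-/

namespace Pool.Agent.W825.FP

open AddMonoidAlgebra Pool.Agent.H771R2.Lander Pool.Agent.H634R3.PPC

theorem mat_mul2 {q : ℕ} [NeZero q] {T : Type} [Fintype T] [DecidableEq T]
    (A B : T × ZMod q → T × ZMod q → ℤ) (N : ℤ) (lam : T → T → ℤ)
    (hA : ∀ x z, ∑ y, A x y * B z y = (if x = z then N else 0) + lam x.1 z.1)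
    (hinv : ∀ (s t : T) (i j c : ZMod q), A (s, i + c) (t, j + c) = A (s, i) (t, j)) :
    mat A * (((mat B).map (st ℤ q)).transpose) =
      (N : AddMonoidAlgebra ℤ (ZMod q)) • (1 : Matrix T T (AddMonoidAlgebra ℤ (ZMod q))) +
      nm q • Matrix.of (fun s u => (lam s u : AddMonoidAlgebra ℤ (ZMod q))) := by
  funext s u
  have key : ∀ e : ZMod q, ∑ t : T, ∑ c' : ZMod q, A (s, 0) (t, e + c') * B (u, 0) (t, c') =
      (if s = u ∧ e = 0 then N else 0) + lam s u := by
    intro e
    have h1 := hA (s, -e) (u, 0)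
    rw [Fintype.sum_prod_type] at h1
    have h2 : ((s, -e) = (u, (0 : ZMod q))) ↔ (s = u ∧ e = 0) := by
      rw [Prod.mk.injEq, neg_eq_zero]
    simp only [h2] at h1
    rw [← h1]
    refine Finset.sum_congr rfl fun t _ => Finset.sum_congr rfl fun c' _ => ?_
    congr 1
    have := hinv s t (-e) c' e
    rw [neg_add_cancel, add_comm c' e] at this
    exact this
  have h3 : (mat A * (((mat B).map (st ℤ q)).transpose)) s u =
      ∑ e : ZMod q, single e ((if s = u ∧ e = 0 then N else 0) + lam s u) := by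
    rw [Matrix.mul_apply]
    simp only [Matrix.transpose_apply, Matrix.map_apply, mat, map_sum, st_single,
      Finset.sum_mul_sum, single_mul_single]
    have h4 : ∀ t : T, ∑ c : ZMod q, ∑ c' : ZMod q,
        single (c + -c') (A (s, 0) (t, c) * B (u, 0) (t, c')) =
        ∑ e : ZMod q, single e (∑ c' : ZMod q, A (s, 0) (t, e + c') * B (u, 0) (t, c')) := by
      intro t
      rw [Finset.sum_comm]
      have h5 : ∀ c' : ZMod q, ∑ c : ZMod q,
          (single (c + -c') (A (s, 0) (t, c) * B (u, 0) (t, c')) : AddMonoidAlgebra ℤ (ZMod q)) =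
          ∑ e : ZMod q, single e (A (s, 0) (t, e + c') * B (u, 0) (t, c')) := by
        intro c'
        rw [← Equiv.sum_comp (Equiv.addRight c')]
        refine Finset.sum_congr rfl fun e _ => ?_
        simp
      simp only [h5]
      rw [Finset.sum_comm]
      refine Finset.sum_congr rfl fun e _ => ?_
      rw [single_sum']
    simp only [h4]
    rw [Finset.sum_comm]
    refine Finset.sum_congr rfl fun e _ => ?_
    rw [← key e, single_sum']
  rw [h3]
  simp only [Matrix.add_apply, Matrix.smul_apply, Matrix.one_apply, Matrix.of_apply, smul_eq_mul,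
    single_add, Finset.sum_add_distrib]
  congr 1
  · by_cases hsu : s = u
    · simp only [hsu, true_and, if_true, mul_one]
      rw [Finset.sum_eq_single (0 : ZMod q)]
      · simp [intCast_def]
      · intro b _ hb
        simp [hb]
      · simp
    · simp [hsu]
  · unfold nm
    rw [Finset.sum_mul]
    refine Finset.sum_congr rfl fun e _ => ?_
    rw [intCast_def, single_mul_single]
    simp

/-- The determinant test: `A` and `B` are two scalings of one matrix. -/
theorem test2 {q : ℕ} [NeZero q] (hq : 2 < q) {T : Type} [Fintype T] [DecidableEq T]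
    (A B : T × ZMod q → T × ZMod q → ℤ) (N : ℤ) (lam : T → T → ℤ)
    (hA : ∀ x z, ∑ y, A x y * B z y = (if x = z then N else 0) + lam x.1 z.1)
    (hinv : ∀ (s t : T) (i j c : ZMod q), A (s, i + c) (t, j + c) = A (s, i) (t, j))
    (sP sL : T → ℤ) (hs : ∀ x y, sP x.1 * A x y = sL y.1 * B x y)
    (hT : Odd (Fintype.card T)) {r : ℕ} (hr : r.Prime) {j : ℕ} (hj : (r : ZMod q) ^ j = -1)
    (hsP : ∀ t, ¬ (r : ℤ) ∣ sP t) (hsL : ∀ t, ¬ (r : ℤ) ∣ sL t)
    {a : ℕ} (ha : Odd a) {u : ℤ} (hu : ¬ (r : ℤ) ∣ u) (hN : N = (r : ℤ) ^ a * u) : False := by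
  obtain ⟨b, hb⟩ := det_mod (N : AddMonoidAlgebra ℤ (ZMod q)) (nm q)
    (Matrix.of (fun (s t : T) => (lam s t : AddMonoidAlgebra ℤ (ZMod q))))
  rw [← mat_mul2 A B N lam hA hinv, Matrix.det_mul, Matrix.det_transpose] at hb
  have h1 : ((mat B).map (st ℤ q)).det = st ℤ q (mat B).det := by
    rw [RingHom.map_det]
    rfl
  rw [h1] at hb
  set cP : ℤ := ∏ t, sP t with hcP
  set cL : ℤ := ∏ t, sL t with hcL
  -- the relation between the two determinants
  have hdet : (cP : AddMonoidAlgebra ℤ (ZMod q)) * (mat A).det = (cL : AddMonoidAlgebra ℤ (ZMod q)) *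
      (mat B).det := by
    have e1 : Matrix.diagonal (fun t => (sP t : AddMonoidAlgebra ℤ (ZMod q))) * mat A =
        mat B * Matrix.diagonal (fun t => (sL t : AddMonoidAlgebra ℤ (ZMod q))) := by
      ext1 s t
      rw [Matrix.diagonal_mul, Matrix.mul_diagonal]
      simp only [mat]
      rw [Finset.mul_sum, Finset.sum_mul]
      refine Finset.sum_congr rfl fun c _ => ?_
      rw [intCast_def, intCast_def, single_mul_single, single_mul_single, zero_add, add_zero]
      congr 1
      have := hs (s, 0) (t, c)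
      simp only at this
      rw [Int.cast_id, Int.cast_id, this, mul_comm]
    have e2 := congrArg Matrix.det e1
    rw [Matrix.det_mul, Matrix.det_mul, Matrix.det_diagonal, Matrix.det_diagonal] at e2
    rw [hcP, hcL]
    push_cast
    rw [e2]; ring
  obtain ⟨s, hs'⟩ : Odd (a * Fintype.card T) := ha.mul hT
  have hr' : Prime (r : ℤ) := Nat.prime_iff_prime_int.1 hr
  have hcP' : ¬ (r : ℤ) ∣ cP := by
    rw [hcP, hr'.dvd_finsetProd_iff]
    rintro ⟨t, -, ht⟩
    exact hsP t ht
  have hcL' : ¬ (r : ℤ) ∣ cL := by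
    rw [hcL, hr'.dvd_finsetProd_iff]
    rintro ⟨t, -, ht⟩
    exact hsL t ht
  have hu' : ¬ (r : ℤ) ∣ cP * cL * u ^ Fintype.card T := by
    intro h
    rcases hr'.dvd_or_dvd h with h | h
    · rcases hr'.dvd_or_dvd h with h | h
      · exact hcP' h
      · exact hcL' h
    · exact hu (hr'.dvd_of_dvd_pow h)
  apply descent hr hq hj hu' s ((1 - single 1 1) * ((cP : AddMonoidAlgebra ℤ (ZMod q)) *
    (mat A).det))
  have hst : ∀ c : ℤ, st ℤ q (c : AddMonoidAlgebra ℤ (ZMod q)) = c := fun c => map_intCast _ c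
  have h2 : (1 - single 1 1) * ((cP : AddMonoidAlgebra ℤ (ZMod q)) * (mat A).det) *
      st ℤ q ((1 - single 1 1) * ((cP : AddMonoidAlgebra ℤ (ZMod q)) * (mat A).det)) =
      ff q * ((cP : AddMonoidAlgebra ℤ (ZMod q)) * (cL : AddMonoidAlgebra ℤ (ZMod q)) * ((mat A).det * st ℤ q (mat B).det)) := by
    rw [map_mul (st ℤ q) (1 - single 1 1), ff, hdet, map_mul, hst, ← hdet]
    ring
  rw [h2, hb, hN]
  have h3 : ff q * nm q = 0 := by
    rw [ff, mul_right_comm, one_sub_mul_nm, zero_mul]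
  have h4 : ff q * ((cP : AddMonoidAlgebra ℤ (ZMod q)) * (cL : AddMonoidAlgebra ℤ (ZMod q)) *
      ((((r : ℤ) ^ a * u : ℤ) : AddMonoidAlgebra ℤ (ZMod q)) ^ Fintype.card T + nm q * b)) =
      ff q * ((cP : AddMonoidAlgebra ℤ (ZMod q)) * (cL : AddMonoidAlgebra ℤ (ZMod q)) *
      (((r : ℤ) ^ a * u : ℤ) : AddMonoidAlgebra ℤ (ZMod q)) ^ Fintype.card T) +
      (ff q * nm q) * ((cP : AddMonoidAlgebra ℤ (ZMod q)) * (cL : AddMonoidAlgebra ℤ (ZMod q)) * b) := by ring
  rw [h4, h3, zero_mul, add_zero, ← hs', zsmul_eq_mul, pow_mul]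
  push_cast
  ring

end Pool.Agent.W825.FP
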