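import Mathlib
import Pool.Agent.H634R3.PPC.OrbTest2
import Pool.Agent.W825.FP.Alg

set_option autoImplicit false

/-!
# The determinant test for orbit matrices with classes of different sizes
-/

namespace Pool.Agent.W825.FP

open Finset MulAction Pool.Agent.H634R3.PPC

variable {G : Type} [Group G] [Fintype G] {P L : Type} [Fintype P] [Fintype L] [MulAction G P]
  [MulAction G L] {inc : P → L → Prop}

open Classical in
theorem sz_bar {X : Type} [Fintype X] [MulAction G X] (H : Subgroup G) {g : G} (hg : Nrm H g)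
    (α : orbitRel.Quotient H X) : sz H (bar H hg α) = sz H α := by
  unfold sz
  symm
  apply card_bij (fun x _ => g • x)
  · intro x hx
    rw [mem_filter] at hx ⊢
    exact ⟨mem_univ _, by rw [← hx.2]; rfl⟩
  · intro x _ y _ h
    exact MulAction.injective g h
  · intro y hy
    rw [mem_filter] at hy
    refine ⟨g⁻¹ • y, ?_, smul_inv_smul g y⟩
    rw [mem_filter]
    refine ⟨mem_univ _, ?_⟩
    apply (bar H hg).injective
    rw [bar_cls, smul_inv_smul, hy.2]

theorem sz_bar_pow {X : Type} [Fintype X] [MulAction G X] (H : Subgroup G) {g : G} (hg : Nrm H g)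
    (k : ℕ) (α : orbitRel.Quotient H X) : sz H ((bar H hg ^ k) α) = sz H α := by
  induction k with
  | zero => rfl
  | succ k ih => rw [pow_succ', Equiv.Perm.mul_apply, sz_bar, ih]

open Classical in
/-- **The test.** -/
theorem orb_test2 {n la : ℕ} (D : Des inc n la)
    (hinc : ∀ (g : G) (p : P) (l : L), inc (g • p) (g • l) ↔ inc p l) (H : Subgroup G) {g : G}
    (hg : Nrm H g) {q : ℕ} (hq : q.Prime) (hq2 : 2 < q) (hgq : g ^ q ∈ H)
    {r : ℕ} (hr : r.Prime)
    (hP : ∀ α : orbitRel.Quotient H P, bar H hg α ≠ α → ¬ r ∣ sz H α)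
    (hL : ∀ β : orbitRel.Quotient H L, bar H hg β ≠ β → ¬ r ∣ sz H β)
    (hodd : Odd (univ.filter (fun α : orbitRel.Quotient H P => bar H hg α ≠ α)).card)
    {j : ℕ} (hj : (r : ZMod q) ^ j = -1)
    {a : ℕ} (ha : Odd a) {u : ℕ} (hu : ¬ r ∣ u) (hN : n = r ^ a * u) : False := by
  have : NeZero q := ⟨hq.ne_zero⟩
  let σ : Equiv.Perm (orbitRel.Quotient H P) := bar H hg
  let τ : Equiv.Perm (orbitRel.Quotient H L) := bar H hg
  have hσ : σ ^ q = 1 := by
    ext α
    obtain ⟨x, rfl⟩ := cls_surj H α
    rw [bar_pow_cls, cls_smul H hgq]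
    rfl
  have hτ : τ ^ q = 1 := by
    ext α
    obtain ⟨x, rfl⟩ := cls_surj H α
    rw [bar_pow_cls, cls_smul H hgq]
    rfl
  let X := {α : orbitRel.Quotient H P // σ α ≠ α}
  let Y := {β : orbitRel.Quotient H L // τ β ≠ β}
  let ρ : Equiv.Perm X := σ.subtypePerm (fun p => by
    simp only [ne_eq, EmbeddingLike.apply_eq_iff_eq])
  let ρ' : Equiv.Perm Y := τ.subtypePerm (fun l => by
    simp only [ne_eq, EmbeddingLike.apply_eq_iff_eq])
  have hρk : ∀ (k : ℕ) (x : X), ((ρ ^ k) x).1 = (σ ^ k) x.1 := by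
    intro k
    induction k with
    | zero => intro x; rfl
    | succ k ih =>
      intro x
      rw [pow_succ', pow_succ', Equiv.Perm.mul_apply, Equiv.Perm.mul_apply, ← ih]
      rfl
  have hρ'k : ∀ (k : ℕ) (y : Y), ((ρ' ^ k) y).1 = (τ ^ k) y.1 := by
    intro k
    induction k with
    | zero => intro x; rfl
    | succ k ih =>
      intro x
      rw [pow_succ', pow_succ', Equiv.Perm.mul_apply, Equiv.Perm.mul_apply, ← ih]
      rfl
  obtain ⟨T, hTf, hTd, e, he⟩ := free_decomp hq ρ (by
    ext x
    rw [hρk, hσ]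
    rfl) (fun x hx => x.2 (congrArg Subtype.val hx))
  obtain ⟨T', hTf', hTd', e', he'⟩ := free_decomp hq ρ' (by
    ext x
    rw [hρ'k, hτ]
    rfl) (fun x hx => x.2 (congrArg Subtype.val hx))
  -- counting
  have hfix := card_fixed_classes D hinc H hg
  have hcl := card_classes D hinc H
  have hX : Fintype.card X + (univ.filter (fun p => σ p = p)).card =
      Fintype.card (orbitRel.Quotient H P) := by
    rw [Fintype.card_subtype, add_comm]
    exact card_filter_add_card_filter_not _
  have hY : Fintype.card Y + (univ.filter (fun l => τ l = l)).card =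
      Fintype.card (orbitRel.Quotient H L) := by
    rw [Fintype.card_subtype, add_comm]
    exact card_filter_add_card_filter_not _
  have hXT : Fintype.card X = Fintype.card T * q := by
    rw [← Fintype.card_congr e, Fintype.card_prod, ZMod.card]
  have hYT : Fintype.card Y = Fintype.card T' * q := by
    rw [← Fintype.card_congr e', Fintype.card_prod, ZMod.card]
  have hTT : Fintype.card T = Fintype.card T' := by
    apply Nat.eq_of_mul_eq_mul_right hq.pos
    have h1 : (univ.filter (fun p => σ p = p)).card = (univ.filter (fun l => τ l = l)).card := hfix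
    omega
  let ε : T ≃ T' := Fintype.equivOfCardEq hTT
  have hTodd : Odd (Fintype.card T) := by
    have h2 : Odd (Fintype.card T * q) := by
      rw [← hXT, Fintype.card_subtype]
      exact hodd
    exact (Nat.odd_mul.1 h2).1
  let A : T × ZMod q → T × ZMod q → ℤ := fun x y =>
    (aa inc H (e x).1.out (e' (ε y.1, y.2)).1 : ℤ)
  let B : T × ZMod q → T × ZMod q → ℤ := fun x y =>
    (bb inc H (e x).1 (e' (ε y.1, y.2)).1.out : ℤ)
  let lam : T → T → ℤ := fun s t =>
    (la * sz H (e (t, 0)).1 : ℤ) - ∑ β ∈ univ.filter (fun β : orbitRel.Quotient H L => τ β = β),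
      (aa inc H (e (s, 0)).1.out β : ℤ) * (bb inc H (e (t, 0)).1 β.out : ℤ)
  have hfixk : ∀ (k : ℕ) (β : orbitRel.Quotient H L), τ β = β → (τ ^ k) β = β := by
    intro k β hβ
    induction k with
    | zero => rfl
    | succ k ih => rw [pow_succ, Equiv.Perm.mul_apply, hβ, ih]
  have hszP : ∀ x : T × ZMod q, sz H (e x).1 = sz H (e (x.1, 0)).1 := by
    rintro ⟨t, i⟩
    have h9 := he t 0 i
    rw [zero_add] at h9
    simp only
    rw [h9, hρk]
    exact sz_bar_pow H hg _ _
  have hszL : ∀ x : T' × ZMod q, sz H (e' x).1 = sz H (e' (x.1, 0)).1 := by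
    rintro ⟨t, i⟩
    have h9 := he' t 0 i
    rw [zero_add] at h9
    simp only
    rw [h9, hρ'k]
    exact sz_bar_pow H hg _ _
  refine test2 hq2 A B (n : ℤ) lam ?_ ?_ (fun t => (sz H (e (t, 0)).1 : ℤ))
    (fun t => (sz H (e' (ε t, 0)).1 : ℤ)) ?_ hTodd hr hj ?_ ?_ ha (u := (u : ℤ)) ?_ ?_
  · intro x z
    have h1 : ∑ y : T × ZMod q, A x y * B z y =
        ∑ y : Y, (aa inc H (e x).1.out y.1 : ℤ) * (bb inc H (e z).1 y.1.out : ℤ) := by
      rw [← Equiv.sum_comp ((Equiv.prodCongr ε (Equiv.refl (ZMod q))).trans e')]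
      refine sum_congr rfl fun y _ => ?_
      simp only [A, B, Equiv.trans_apply, Equiv.prodCongr_apply, Prod.map, Equiv.refl_apply]
    have h4 : (∑ y : Y, (aa inc H (e x).1.out y.1 : ℤ) * (bb inc H (e z).1 y.1.out : ℤ)) =
        ∑ β ∈ univ.filter (fun β : orbitRel.Quotient H L => ¬ τ β = β),
          (aa inc H (e x).1.out β : ℤ) * (bb inc H (e z).1 β.out : ℤ) := by
      rw [← Finset.sum_subtype (univ.filter (fun l : orbitRel.Quotient H L => τ l ≠ l)) (by simp)
        (fun β => (aa inc H (e x).1.out β : ℤ) * (bb inc H (e z).1 β.out : ℤ))]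
    have h5 := row_rel hinc D H (e x).1.out (e z).1
    rw [cls_out] at h5
    have h6 : ((∑ β : orbitRel.Quotient H L, aa inc H (e x).1.out β * bb inc H (e z).1 β.out : ℕ) :
        ℤ) = (if x = z then (n : ℤ) else 0) + la * sz H (e (z.1, 0)).1 := by
      rw [h5]
      have h7 : ((e x).1 = (e z).1) ↔ x = z := by
        rw [Subtype.val_inj, EmbeddingLike.apply_eq_iff_eq]
      simp only [h7]
      rw [hszP z]
      push_cast
      rfl
    push_cast at h6
    rw [← sum_filter_add_sum_filter_not univ (fun β : orbitRel.Quotient H L => τ β = β)] at h6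
    -- fixed classes see only the orbits
    have h8 : ∀ (y : T × ZMod q) (β : orbitRel.Quotient H L), τ β = β →
        aa inc H (e y).1.out β = aa inc H (e (y.1, 0)).1.out β ∧
        bb inc H (e y).1 β.out = bb inc H (e (y.1, 0)).1 β.out := by
      rintro ⟨t, i⟩ β hβ
      have h9 := he t 0 i
      rw [zero_add] at h9
      simp only
      rw [h9, hρk]
      constructor
      · conv_lhs => rw [← hfixk i.val β hβ]
        exact aa_bar_pow hinc H hg _ _ _
      · conv_lhs => rw [← hfixk i.val β hβ]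
        exact bb_bar_pow hinc H hg _ _ _
    have h10 : ∑ β ∈ univ.filter (fun β : orbitRel.Quotient H L => τ β = β),
        (aa inc H (e x).1.out β : ℤ) * (bb inc H (e z).1 β.out : ℤ) =
        ∑ β ∈ univ.filter (fun β : orbitRel.Quotient H L => τ β = β),
        (aa inc H (e (x.1, 0)).1.out β : ℤ) * (bb inc H (e (z.1, 0)).1 β.out : ℤ) := by
      refine sum_congr rfl fun β hβ => ?_
      have hβ' := (mem_filter.1 hβ).2
      rw [(h8 x β hβ').1, (h8 z β hβ').2]
    rw [h10] at h6
    rw [h1, h4]
    simp only [lam]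
    linarith
  · intro s t i j' c
    simp only [A]
    rw [he s i c, he' (ε t) j' c, hρk, hρ'k]
    exact_mod_cast aa_bar_pow hinc H hg _ _ _
  · intro x y
    simp only [A, B]
    have h3 := sz_aa hinc H (e x).1.out (e' (ε y.1, y.2)).1.out
    rw [cls_out, cls_out, hszP, hszL] at h3
    exact_mod_cast h3
  · intro t h
    exact hP _ (e (t, 0)).2 (by exact_mod_cast h)
  · intro t h
    exact hL _ (e' (ε t, 0)).2 (by exact_mod_cast h)
  · intro h1
    exact hu (by exact_mod_cast h1)
  · rw [hN]
    push_cast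
    ring

end Pool.Agent.W825.FP
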