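import Mathlib
import Pool.Agent.H634R3.PPC.Plane
import Pool.Agent.W825.FP.Orb

set_option autoImplicit false

/-!
# The test for collineations of prime power order
-/

namespace Pool.Agent.W825.FP

open Finset MulAction Pool.Agent.H634R3.PPC Configuration Configuration.ProjectivePlane

theorem plane_des (P L : Type) [Membership P L] [ProjectivePlane P L] [Fintype P] [Fintype L] :
    Des (fun (p : P) (l : L) => p ∈ l) (order P L) 1 := by
  classical
  refine ⟨fun x z => ?_, fun l m => ?_, card_points_eq_card_lines P L, ?_⟩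
  · have := card_common_lines (L := L) x z
    convert this using 2
  · have := card_common_points (P := P) l m
    convert this using 2
  · exact (one_lt_order P L).le

/-- a cyclic group of order dividing a prime power: fixed classes come from fixed points -/
theorem fixed_of_fixed_class {G : Type} [Group G] {X : Type} [MulAction G X] {g : G} {q b : ℕ}
    (hg : g ^ q ^ b = 1) {x : X} {h : G} (hh : h ∈ Subgroup.zpowers (g ^ q)) (hx : h • x = g • x) :
    g • x = x := by
  obtain ⟨k, rfl⟩ := Subgroup.mem_zpowers_iff.1 hh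
  have h1 : g ^ (1 - (q : ℤ) * k) ∈ stabilizer G x := by
    rw [mem_stabilizer_iff, zpow_sub, zpow_one, zpow_mul]
    have e : ((g : G) ^ (q : ℤ)) ^ k = (g ^ q) ^ k := by rw [zpow_natCast]
    rw [e, mul_smul]
    have hc : g * ((g ^ q) ^ k)⁻¹ = ((g ^ q) ^ k)⁻¹ * g :=
      (((Commute.refl g).pow_right q).zpow_right k).inv_right.eq
    rw [← mul_smul, hc, mul_smul, ← hx, inv_smul_smul]
  have hcop : IsCoprime (1 - (q : ℤ) * k) ((q : ℤ) ^ b) := by
    apply IsCoprime.pow_right
    exact ⟨1, k, by ring⟩
  obtain ⟨u, v, huv⟩ := hcop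
  have h2 : g = (g ^ (1 - (q : ℤ) * k)) ^ u := by
    have e1 : g ^ ((q : ℤ) ^ b) = 1 := by
      have : ((q : ℤ) ^ b) = ((q ^ b : ℕ) : ℤ) := by push_cast; rfl
      rw [this, zpow_natCast, hg]
    calc g = g ^ (u * (1 - (q : ℤ) * k) + v * (q : ℤ) ^ b) := by rw [huv, zpow_one]
      _ = (g ^ (1 - (q : ℤ) * k)) ^ u * (g ^ ((q : ℤ) ^ b)) ^ v := by
          rw [zpow_add, mul_comm u, mul_comm v, zpow_mul, zpow_mul]
      _ = _ := by rw [e1, one_zpow, mul_one]
  have h3 : g ∈ stabilizer G x := by
    rw [h2]
    exact (stabilizer G x).zpow_mem h1 u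
  exact mem_stabilizer_iff.1 h3

theorem not_dvd_sz {G : Type} [Group G] [Fintype G] {X : Type} [Fintype X] [MulAction G X]
    (H : Subgroup G) {q b : ℕ} (hG : Nat.card G ∣ q ^ b) (hq : q.Prime) {r : ℕ} (hr : r.Prime)
    (hrq : r ≠ q) (α : orbitRel.Quotient H X) : ¬ r ∣ sz H α := by
  classical
  obtain ⟨x, rfl⟩ := cls_surj H α
  intro h
  have h1 := tc_mul H (x := x) (y := x) rfl
  have h2 : (univ.filter (fun h : G => h ∈ H)).card = Nat.card H := by
    rw [Nat.card_eq_fintype_card, Fintype.card_subtype]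
  have h3 : sz H (cls H x) ∣ q ^ b := by
    have : sz H (cls H x) ∣ Nat.card H := ⟨_, by rw [← h2, ← h1]⟩
    exact (this.trans (Subgroup.card_subgroup_dvd_card H)).trans hG
  have h4 : r ∣ q := hr.dvd_of_dvd_pow (h.trans h3)
  exact hrq ((Nat.prime_dvd_prime_iff_eq hr hq).1 h4)

/-- the test for planes and collineations of prime power order -/
theorem pp_test {P L : Type} [Membership P L] [ProjectivePlane P L] [Fintype P] [Fintype L]
    (σ : Equiv.Perm P) (τ : Equiv.Perm L) (h : ∀ p l, σ p ∈ τ l ↔ p ∈ l) {q : ℕ} (hq : q.Prime)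
    (hq2 : 2 < q) {b : ℕ} (hσ : σ ^ q ^ b = 1) (hτ : τ ^ q ^ b = 1)
    (heven : Even (Nat.card {p // σ p = p}))
    {r : ℕ} (hr : r.Prime) {j : ℕ} (hj : (r : ZMod q) ^ j = -1)
    {a : ℕ} (ha : Odd a) {u : ℕ} (hu : ¬ r ∣ u) (hN : order P L = r ^ a * u) : False := by
  classical
  have : Fact (1 < q) := ⟨hq.one_lt⟩
  let gg : Equiv.Perm P × Equiv.Perm L := (σ, τ)
  let G : Type := Subgroup.zpowers gg
  let _ : Group G := inferInstanceAs (Group (Subgroup.zpowers gg))
  have : Finite G := inferInstanceAs (Finite (Subgroup.zpowers gg))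
  let _ : Fintype G := Fintype.ofFinite G
  let aP : MulAction G P := MulAction.compHom P ((MonoidHom.fst (Equiv.Perm P) (Equiv.Perm L)).comp
    (Subgroup.zpowers gg).subtype)
  let aL : MulAction G L := MulAction.compHom L ((MonoidHom.snd (Equiv.Perm P) (Equiv.Perm L)).comp
    (Subgroup.zpowers gg).subtype)
  have hPact : ∀ (x : G) (p : P), x • p = x.1.1 p := fun x p => rfl
  have hLact : ∀ (x : G) (l : L), x • l = x.1.2 l := fun x l => rfl
  have hpow : ∀ (k : ℕ) p l, (σ ^ k) p ∈ (τ ^ k) l ↔ p ∈ l := by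
    intro k
    induction k with
    | zero => intro p l; rfl
    | succ k ih =>
      intro p l
      rw [pow_succ', pow_succ', Equiv.Perm.mul_apply, Equiv.Perm.mul_apply, h, ih]
  have hgg : gg ^ q ^ b = 1 := by
    apply Prod.ext
    · exact hσ
    · exact hτ
  have hinc : ∀ (x : G) (p : P) (l : L), (x • p ∈ x • l) ↔ p ∈ l := by
    rintro ⟨x, hx⟩ p l
    rw [hPact, hLact]
    have hx' : x ∈ Submonoid.powers gg :=
      (mem_powers_iff_mem_zpowers (x := gg) (y := x)).2 hx
    obtain ⟨k, rfl⟩ := hx'
    exact hpow k p l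
  let g : G := ⟨gg, Subgroup.mem_zpowers gg⟩
  have hgpow : g ^ q ^ b = 1 := Subtype.ext hgg
  let H : Subgroup G := Subgroup.zpowers (g ^ q)
  have hcomm : ∀ x : G, x ∈ H → Commute g x := by
    intro x hx
    obtain ⟨k, rfl⟩ := Subgroup.mem_zpowers_iff.1 hx
    exact ((Commute.refl g).pow_right q).zpow_right k
  have hnrm : Nrm H g := by
    constructor
    · intro x hx
      rw [(hcomm x hx).eq, mul_inv_cancel_right]
      exact hx
    · intro x hx
      rw [mul_assoc, ← (hcomm x hx).eq, inv_mul_cancel_left]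
      exact hx
  have hcard : Nat.card G ∣ q ^ b := by
    have : Nat.card G = orderOf gg := Nat.card_zpowers gg
    rw [this]
    exact orderOf_dvd_of_pow_eq_one hgg
  have hrq : r ≠ q := by
    rintro rfl
    rw [CharP.cast_eq_zero] at hj
    rcases Nat.eq_zero_or_pos j with h0 | h0
    · subst h0
      rw [pow_zero] at hj
      have h2 : ((2 : ℕ) : ZMod r) = 0 := by push_cast; linear_combination hj
      rw [ZMod.natCast_eq_zero_iff] at h2
      exact absurd (Nat.le_of_dvd (by norm_num) h2) (by omega)
    · rw [zero_pow h0.ne'] at hj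
      have : (1 : ZMod r) = 0 := by rw [← neg_eq_zero, ← hj]
      exact one_ne_zero this
  -- parity of the number of nonfixed classes
  have hszodd : ∀ α : orbitRel.Quotient H P, Odd (sz H α) := by
    intro α
    rw [← Nat.not_even_iff_odd, even_iff_two_dvd]
    exact not_dvd_sz H hcard hq Nat.prime_two (by omega) α
  have hPodd : Odd (Fintype.card P) := by
    rw [card_points P L]
    have : order P L ^ 2 + order P L = order P L * (order P L + 1) := by ring
    rw [this]
    exact (Nat.even_mul_succ_self _).add_one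
  have hsum : Fintype.card P = ∑ α : orbitRel.Quotient H P, sz H α := by
    unfold sz
    rw [← card_univ, card_eq_sum_card_fiberwise (f := fun x : P => cls H x) (t := univ)
      (fun x _ => mem_coe.2 (mem_univ _))]
    
  have hclodd : Odd (Fintype.card (orbitRel.Quotient H P)) := by
    rw [hsum] at hPodd
    rw [Finset.odd_sum_iff_odd_card_odd] at hPodd
    rw [filter_true_of_mem (fun α _ => hszodd α)] at hPodd
    exact hPodd
  have hfixcl : (univ.filter (fun α : orbitRel.Quotient H P => bar H hnrm α = α)).card =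
      Nat.card {p // σ p = p} := by
    rw [Nat.card_eq_fintype_card, Fintype.card_subtype]
    symm
    apply card_bij (fun p _ => cls H p)
    · intro p hp
      rw [mem_filter] at hp ⊢
      refine ⟨mem_univ _, ?_⟩
      rw [bar_cls]
      congr 1
      exact hp.2
    · intro p hp p' hp' he
      rw [mem_filter] at hp hp'
      obtain ⟨x, hx, hxe⟩ := (cls_eq H).1 he
      have h1 : x ∈ stabilizer G p' := by
        obtain ⟨k, rfl⟩ := Subgroup.mem_zpowers_iff.1 hx
        have h2 : g ∈ stabilizer G p' := mem_stabilizer_iff.2 hp'.2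
        exact (stabilizer G p').zpow_mem ((stabilizer G p').pow_mem h2 q) k
      rw [← hxe]
      exact mem_stabilizer_iff.1 h1
    · intro α hα
      rw [mem_filter] at hα
      obtain ⟨x, rfl⟩ := cls_surj H α
      rw [bar_cls] at hα
      obtain ⟨y, hy, hye⟩ := (cls_eq H).1 hα.2
      refine ⟨x, ?_, rfl⟩
      rw [mem_filter]
      exact ⟨mem_univ _, fixed_of_fixed_class hgpow hy hye⟩
  have hodd : Odd (univ.filter (fun α : orbitRel.Quotient H P => bar H hnrm α ≠ α)).card := by
    have h1 := card_filter_add_card_filter_not (s := (univ : Finset (orbitRel.Quotient H P)))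
      (fun α => bar H hnrm α = α)
    rw [hfixcl, card_univ] at h1
    rw [← h1] at hclodd
    rcases Nat.even_or_odd (univ.filter (fun α : orbitRel.Quotient H P => ¬ bar H hnrm α = α)).card
      with h3 | h3
    · exact absurd hclodd (Nat.not_odd_iff_even.2 (heven.add h3))
    · exact h3
  exact orb_test2 (plane_des P L) hinc H hnrm hq hq2 (Subgroup.mem_zpowers _) hr
    (fun α _ => not_dvd_sz H hcard hq hr hrq α) (fun α _ => not_dvd_sz H hcard hq hr hrq α) hodd hj
    ha hu hN

end Pool.Agent.W825.FP
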